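import Pool.Agent.Y254.EL.MaxMain

/-!
# The Kakeya maximal function conjecture and estimates without loss below the critical exponent

For every `n ≥ 3`: the estimate of the problem in dimension `n` (on `L^n`, with the factor
`δ ^ (-ε)` for every `ε > 0`) holds if and only if for every `1 < p < n` the sharp estimate on
`L^p`, `‖f*_δ‖_p ≤ C δ ^ (1 - n / p) ‖f‖_p`, holds without any further loss, together with its
weak type form `L^p → L^(q, ∞)`, `q = (n - 1) p / (p - 1)`.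
-/

set_option autoImplicit false

open MeasureTheory
open scoped ENNReal

namespace Pool.Agent.Results.MP_5168f5_an.EpsilonRemoval

/-- The closed cylinder of length `1` and radius `δ` with centre `a` and axis direction `e`. -/
def tube {n : ℕ} (δ : ℝ) (a e : EuclideanSpace ℝ (Fin n)) : Set (EuclideanSpace ℝ (Fin n)) :=
  {y | |inner ℝ (y - a) e| ≤ 1 / 2 ∧ ‖(y - a) - (inner ℝ (y - a) e) • e‖ ≤ δ}

/-- The Kakeya maximal function. -/
noncomputable def kakeyaMax {n : ℕ} (δ : ℝ) (f : EuclideanSpace ℝ (Fin n) → ℝ)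
    (e : EuclideanSpace ℝ (Fin n)) : ℝ≥0∞ :=
  ⨆ a : EuclideanSpace ℝ (Fin n), (volume (tube δ a e))⁻¹ * ∫⁻ y in tube δ a e, ‖f y‖ₑ

/-- Surface measure of the unit sphere. -/
noncomputable abbrev surf (n : ℕ) : Measure (Metric.sphere (0 : EuclideanSpace ℝ (Fin n)) 1) :=
  (volume : Measure (EuclideanSpace ℝ (Fin n))).toSphere

theorem result (n : ℕ) (hn : 3 ≤ n) :
    (∀ ε : ℝ, 0 < ε → ∃ C : ℝ, 0 < C ∧ ∀ δ : ℝ, 0 < δ → δ < 1 →
      ∀ f : EuclideanSpace ℝ (Fin n) → ℝ, AEMeasurable f volume →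
        (∫⁻ e, kakeyaMax δ f e ^ (n : ℝ) ∂(surf n)) ^ (1 / (n : ℝ)) ≤
          ENNReal.ofReal (C * δ ^ (-ε)) * (∫⁻ y, ‖f y‖ₑ ^ (n : ℝ)) ^ (1 / (n : ℝ))) ↔
    (∀ p q : ℝ, 1 < p → p < n → q = ((n : ℝ) - 1) * p / (p - 1) →
      ∃ C : ℝ, 0 < C ∧ ∀ δ : ℝ, 0 < δ → δ < 1 →
      ∀ f : EuclideanSpace ℝ (Fin n) → ℝ, AEMeasurable f volume →
        ((∫⁻ e, kakeyaMax δ f e ^ p ∂(surf n)) ^ (1 / p) ≤
          ENNReal.ofReal (C * δ ^ (-((n : ℝ) / p - 1))) * (∫⁻ y, ‖f y‖ₑ ^ p) ^ (1 / p)) ∧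
        (∀ l : ℝ, 0 < l → surf n {e | ENNReal.ofReal l < kakeyaMax δ f e} ≤
          ENNReal.ofReal (C * (δ ^ (-((n : ℝ) / p - 1)) / l) ^ q) *
            (∫⁻ y, ‖f y‖ₑ ^ p) ^ (q / p))) :=
  Pool.Agent.Y254.EL.MX.main n hn

end Pool.Agent.Results.MP_5168f5_an.EpsilonRemoval
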