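import Pool.Agent.Y244.Tw.Mu

set_option autoImplicit false
set_option maxHeartbeats 1000000

/-!
# MP_5168f5: the Kakeya maximal estimate for towers of families of lines

Work in `ℝ^n = ℝ^d × ℝ`, `n = d + 1`, with its Euclidean norm (`Space d`).  For `v` in the closed unit
ball of `ℝ^d` the line number `v` of the family given by `b : ℝ^d → ℝ^d` is `{(b v + s v, s) : s ∈ ℝ}`;
its direction is `(v, 1)`.  `lineMax δ b f v` is the supremum of the averages of `|f|` over the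
`δ`-tubes of length one with axis on the line number `v`.

A family `b` on a set `B` of directions is a *tower* if it is built from *stages* by two operations:
countable decompositions of `B`, with summable multiplicities, and *skew products*.  In a skew product
the directions are split, `ℝ^d = ℝ^{d1} × ℝ^{d2}` (an arbitrary orthogonal splitting), the first
component of `b(v1, v2)` is `b1(v1)` for a tower `b1` of dimension `d1`, and the second one is
`b2(v1)(v2)`, where for each `v1` the map `b2(v1)` is a tower of dimension `d2`; its dependence on `v1`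
is completely arbitrary (measurable).  The stages are

* arbitrary families of lines in the plane (`d = 1`, any measurable `b`);
* families with at most `M` lines through almost every point, given by a map that is Lipschitz on
  countably many pieces (without any bound for the Lipschitz constants);
* section-monotone families;
* families with Taylor constants `A k` of all orders `k` (in particular smooth families);
* for every exponent `1 ≤ p ≤ d + 1`: any family that satisfies the Kakeya maximal estimate in `L^p`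
  with the sharp power `δ^(-(d + 1 - p))`, up to `δ^(-ε)`, with the constants `c ε d`.

Every tower has an exponent `p`: `p = d + 1` for the first four kinds of stages, and a skew product of
towers of the exponents `p1`, `p2` has the exponent `p1 + p2 - 1`.  Theorem: all towers satisfy the
Kakeya maximal estimate in `L^p` with the sharp power `δ^(-(n - p))`, up to `δ^(-ε)`; so towers of
critical stages satisfy the estimate of the Kakeya maximal conjecture, at the critical exponent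
`p = n`.  The constant does not depend on the tower, and it is enough that the family is `δ`-close to
a tower.
-/

open MeasureTheory Set ENNReal NNReal Metric

namespace Pool.Agent.Results.MP_5168f5_an.TowerFamilies

/-- Euclidean space `ℝ^d`. -/
abbrev Vec (d : ℕ) : Type := EuclideanSpace ℝ (Fin d)

/-- Euclidean space `ℝ^{d+1}`, written as `ℝ^d × ℝ` with the Euclidean norm. -/
abbrev Space (d : ℕ) : Type := WithLp 2 (Vec d × ℝ)

/-- The unit vector `(v, 1)/√(1+|v|²)`. -/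
noncomputable def dir {d : ℕ} (v : Vec d) : Space d :=
  (√(1 + ‖v‖ ^ 2))⁻¹ • WithLp.toLp 2 (v, (1:ℝ))

/-- The closed tube of length `1` and radius `δ` with centre `a` and axis direction `e`. -/
def tube {d : ℕ} (δ : ℝ) (e a : Space d) : Set (Space d) :=
  {y | |inner ℝ (y - a) e| ≤ 1 / 2 ∧ ‖(y - a) - (inner ℝ (y - a) e : ℝ) • e‖ ≤ δ}

/-- The point of height `s` on the line `{(b v + s v, s)}`. -/
noncomputable def linePt {d : ℕ} (b : Vec d → Vec d) (v : Vec d) (s : ℝ) : Space d :=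
  WithLp.toLp 2 (b v + s • v, s)

/-- Supremum of the averages of `|f|` over the `δ`-tubes with axis on the line number `v`. -/
noncomputable def lineMax {d : ℕ} (δ : ℝ) (b : Vec d → Vec d) (f : Space d → ℝ) (v : Vec d) : ℝ≥0∞ :=
  ⨆ s : ℝ, (volume (tube δ (dir v) (linePt b v s)))⁻¹ *
    ∫⁻ y in tube δ (dir v) (linePt b v s), ‖f y‖ₑ

/-- The Kakeya maximal estimate for the lines `{(b v + t v, t)}`, `v ∈ B`, in `L^p`, for the tubes of
all widths `δ < 1`, with the constants `C ε` and the loss `δ^(-(d+1-p)-ε)`. -/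
def Maximal {d : ℕ} (C : ℝ → ℝ≥0∞) (p : ℝ) (B : Set (Vec d)) (b : Vec d → Vec d) : Prop :=
  ∀ ε : ℝ, 0 < ε → ∀ δ : ℝ, 0 < δ → δ < 1 → ∀ f : Space d → ℝ, Measurable f →
    ∫⁻ v in B, lineMax δ b f v ^ p
      ≤ C ε * ENNReal.ofReal (δ ^ (-((d : ℝ) + 1 - p) - ε)) * ∫⁻ y, ‖f y‖ₑ ^ p

/-- Up to a null set, `B` is covered by countably many measurable sets on which `b` is Lipschitz. -/
def LipPieces {d : ℕ} (B : Set (Vec d)) (b : Vec d → Vec d) : Prop :=
  ∃ P : ℕ → Set (Vec d), (∀ k, MeasurableSet (P k)) ∧ volume (B \ ⋃ k, P k) = 0 ∧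
    ∀ k, ∃ C : ℝ≥0, LipschitzOnWith C b (P k)

/-- For almost every height `t`, almost every point of height `t` lies on at most `M` of the lines
with direction in `B`. -/
def OverlapLE {d : ℕ} (M : ℕ) (B : Set (Vec d)) (b : Vec d → Vec d) : Prop :=
  ∀ᵐ t : ℝ, ∀ᵐ y : Vec d, {v | v ∈ B ∧ b v + t • v = y}.encard ≤ M

/-- For almost every height `t` the section map `v ↦ b v + t v` becomes monotone on `B` after
composition with an invertible linear map `K` (which may depend on `t`). -/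
def SectionMonotone {d : ℕ} (B : Set (Vec d)) (b : Vec d → Vec d) : Prop :=
  ∀ᵐ t : ℝ, ∃ K : Vec d →L[ℝ] Vec d, K.det ≠ 0 ∧
    ∀ v ∈ B, ∀ w ∈ B, 0 ≤ inner ℝ (K ((b v + t • v) - (b w + t • w))) (v - w)

/-- The polynomial map `ℝ^d → ℝ^d` with components `P i`. -/
noncomputable def polyMap {d : ℕ} (P : Fin d → MvPolynomial (Fin d) ℝ) (v : Vec d) : Vec d :=
  WithLp.toLp 2 (fun i => MvPolynomial.eval (fun j => v j) (P i))

/-- `b` is of class `C^k` on `B` in the sense of Taylor approximation, with constant `A`: at every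
`v₀ ∈ B` there is a polynomial map of degree `< k` with `|b v - P v| ≤ A |v - v₀|^k` on `B`. -/
def TaylorClass {d : ℕ} (k : ℕ) (A : ℝ) (B : Set (Vec d)) (b : Vec d → Vec d) : Prop :=
  ∀ v₀ ∈ B, ∃ P : Fin d → MvPolynomial (Fin d) ℝ, (∀ i, (P i).totalDegree < k) ∧
    ∀ v ∈ B, ‖b v - polyMap P v‖ ≤ A * ‖v - v₀‖ ^ k

/-- The stages of dimension `d`, exponent `p` and multiplicity `M`: arbitrary families of lines in the
plane; families with at most `M` lines through almost every point, given by a map that is Lipschitz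
on countably many pieces; section-monotone families; families with the Taylor constants `A k` of
order `k`, `k ≥ 1`; for `1 ≤ p ≤ d + 1` all the families that satisfy the Kakeya maximal estimate
with the exponent `p` and the constants `c ε d * M`. -/
inductive Stage (A : ℕ → ℝ) (c : ℝ → ℕ → ℝ≥0) :
    (d : ℕ) → ℝ → ℝ≥0 → Set (Vec d) → (Vec d → Vec d) → Prop
  | planar {B : Set (Vec 1)} {b : Vec 1 → Vec 1} : Stage A c 1 2 1 B b
  | overlap {d M : ℕ} {B : Set (Vec d)} {b : Vec d → Vec d} (hM : 1 ≤ M)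
      (hL : LipPieces B b) (hO : OverlapLE M B b) : Stage A c d (d + 1) M B b
  | monotone {d : ℕ} {B : Set (Vec d)} {b : Vec d → Vec d} (hS : SectionMonotone B b) :
      Stage A c d (d + 1) 1 B b
  | taylor {d : ℕ} {B : Set (Vec d)} {b : Vec d → Vec d} (h : ∀ k, 1 ≤ k → TaylorClass k (A k) B b) :
      Stage A c d (d + 1) 1 B b
  | maximal {d : ℕ} {p : ℝ} {M : ℝ≥0} {B : Set (Vec d)} {b : Vec d → Vec d} (hp : 1 ≤ p)
      (hpd : p ≤ d + 1) (h : Maximal (fun ε => c ε d * M) p B b) : Stage A c d p M B b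

/-- The two components of the vector `v` in the orthogonal splitting `Φ`. -/
noncomputable def split {d d1 d2 : ℕ} (Φ : Vec d ≃ₗᵢ[ℝ] WithLp 2 (Vec d1 × Vec d2)) (v : Vec d) :
    Vec d1 × Vec d2 := WithLp.ofLp (Φ v)

/-- The family `b` on `B` is the skew product of the family `b1` on `B1` and of the families `b2 v` on
`B2 v`, `v ∈ B1`, for the orthogonal splitting `Φ` of `ℝ^d`; all the data are measurable. -/
def IsSkew {d d1 d2 : ℕ} (Φ : Vec d ≃ₗᵢ[ℝ] WithLp 2 (Vec d1 × Vec d2)) (B : Set (Vec d))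
    (B1 : Set (Vec d1)) (B2 : Vec d1 → Set (Vec d2)) (b : Vec d → Vec d) (b1 : Vec d1 → Vec d1)
    (b2 : Vec d1 → Vec d2 → Vec d2) : Prop :=
  MeasurableSet {z : Vec d1 × Vec d2 | z.1 ∈ B1 ∧ z.2 ∈ B2 z.1} ∧
    Measurable (Function.uncurry b2) ∧ MeasurableSet B ∧ B ⊆ closedBall 0 1 ∧ Measurable b ∧
    ∀ v ∈ B, (split Φ v).1 ∈ B1 ∧ (split Φ v).2 ∈ B2 (split Φ v).1 ∧
      split Φ (b v) = (b1 (split Φ v).1, b2 (split Φ v).1 (split Φ v).2)

/-- Towers over a class `𝒮` of stages; `p` is the exponent, `M` the multiplicity and `B` the set of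
directions. -/
inductive Tower (𝒮 : (d : ℕ) → ℝ → ℝ≥0 → Set (Vec d) → (Vec d → Vec d) → Prop) :
    (d : ℕ) → ℝ → ℝ≥0 → Set (Vec d) → (Vec d → Vec d) → Prop
  | stage {d : ℕ} {p : ℝ} {M : ℝ≥0} {B : Set (Vec d)} {b : Vec d → Vec d} (hd : 1 ≤ d)
      (hB : MeasurableSet B) (hB1 : B ⊆ closedBall 0 1) (hb : Measurable b) (h : 𝒮 d p M B b) :
      Tower 𝒮 d p M B b
  | pieces {d : ℕ} {p : ℝ} {M : ℝ≥0} {b : Vec d → Vec d} (m : ℕ → ℝ≥0) (B : ℕ → Set (Vec d))
      (h : ∀ j, Tower 𝒮 d p (m j) (B j) b) (hM : ∑' j, (m j : ℝ≥0∞) ≤ M) :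
      Tower 𝒮 d p M (⋃ j, B j) b
  | skew {d d1 d2 : ℕ} {p1 p2 : ℝ} {M1 M2 : ℝ≥0} {B : Set (Vec d)} {B1 : Set (Vec d1)}
      {B2 : Vec d1 → Set (Vec d2)} {b : Vec d → Vec d} {b1 : Vec d1 → Vec d1}
      {b2 : Vec d1 → Vec d2 → Vec d2} (Φ : Vec d ≃ₗᵢ[ℝ] WithLp 2 (Vec d1 × Vec d2))
      (hd1 : 1 ≤ d1) (hd2 : 1 ≤ d2) (hM2 : 0 < M2)
      (h1 : Tower 𝒮 d1 p1 M1 B1 b1) (h2 : ∀ v ∈ B1, Tower 𝒮 d2 p2 M2 (B2 v) (b2 v))
      (hs : IsSkew Φ B B1 B2 b b1 b2) : Tower 𝒮 d (p1 + p2 - 1) (M1 * M2) B b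

open Pool.Agent.TH426.Kt (KTower RegBase BaseBd Rough AllB LMb VanOff Pw win spl cb cc KK)
open Pool.Agent.Y244.Tw (Mu)

theorem toK {𝒮 : (d : ℕ) → ℝ → ℝ≥0 → Set (Vec d) → (Vec d → Vec d) → Prop}
    {𝓑 : (d : ℕ) → ℝ → ℝ≥0 → Set (Vec d) → (Vec d → Vec d) → Prop}
    (h0 : ∀ {d : ℕ} {p : ℝ} {M : ℝ≥0} {B : Set (Vec d)} {b : Vec d → Vec d}, 1 ≤ d →
      MeasurableSet B → B ⊆ closedBall 0 1 → Measurable b → 𝒮 d p M B b → 𝓑 d p M B b)
    {d : ℕ} {p : ℝ} {M : ℝ≥0} {B : Set (Vec d)} {b : Vec d → Vec d} (h : Tower 𝒮 d p M B b) :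
    KTower 𝓑 d p M B b := by
  induction h with
  | stage hd hB hB1 hb h => exact KTower.base (h0 hd hB hB1 hb h)
  | pieces m B h hM ih => exact KTower.union m B ih hM
  | @skew d d1 d2 p1 p2 M1 M2 B B1 B2 b b1 b2 Φ hd1 hd2 hM2 h1 h2 hs ih1 ih2 =>
    obtain ⟨hB2, hb2, hB, hB1, hb, hbB⟩ := hs
    exact KTower.skew Φ hd1 hd2 hM2 ih1 ih2 hB2 hb2 hB hB1 hb hbB

/-- The class of stages in the form used by the closure theorem. -/
def GenB (A : ℕ → ℝ) (c : ℝ → ℕ → ℝ≥0)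
    (d : ℕ) (p : ℝ) (M : ℝ≥0) (B : Set (Vec d)) (b : Vec d → Vec d) : Prop :=
  AllB univ A d p M B b ∨ ((1 ≤ p ∧ p ≤ d + 1) ∧ 1 ≤ d ∧ MeasurableSet B ∧ B ⊆ closedBall 0 1 ∧
    Measurable b ∧ Maximal (fun ε => c ε d * M) p B b)

theorem genB_reg (A : ℕ → ℝ) (c : ℝ → ℕ → ℝ≥0) : RegBase (GenB A c) := by
  constructor
  · intro d p N B b h
    rcases h with h | h
    · exact (Pool.Agent.TH426.Kt.allB_reg univ A).meas h
    · exact ⟨h.2.2.1, h.2.2.2.1, h.2.2.2.2.1⟩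
  · intro d p N B b h
    rcases h with h | h
    · exact (Pool.Agent.TH426.Kt.allB_reg univ A).expo h
    · exact h.1

theorem genB_bd (A : ℕ → ℝ) (c : ℝ → ℕ → ℝ≥0) (ε : ℝ) (hε : 0 < ε) :
    ∃ c' : ℕ → ℝ≥0∞, (∀ d, c' d ≠ ∞) ∧ ∀ (δ : ℝ) (k : ℤ), 0 < δ → δ < 1 →
      BaseBd (GenB A c) (3 * δ) (win univ k) 1 c' (Pw ε δ) (Mu δ) := by
  obtain ⟨c2, hc2, hbd⟩ := Pool.Agent.TH426.Kt.allB_bd A ε hε
  set c1 : ℕ → ℝ≥0∞ := fun d => (2 ^ d) ^ ((1 : ℝ) * (d + 1)) * ((3 * 8 ^ d) ^ ((1 : ℝ) * (d + 1)) *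
    (c ε d : ℝ≥0∞)) with hc1
  have hc1t : ∀ d, c1 d ≠ ∞ := by
    intro d
    have h0 : (0 : ℝ) ≤ 1 * ((d : ℝ) + 1) := by positivity
    apply ENNReal.mul_ne_top
    · exact ENNReal.rpow_ne_top_of_nonneg h0 (ENNReal.pow_ne_top (by simp))
    · apply ENNReal.mul_ne_top _ ENNReal.coe_ne_top
      exact ENNReal.rpow_ne_top_of_nonneg h0
        (ENNReal.mul_ne_top (by simp) (ENNReal.pow_ne_top (by simp)))
  refine ⟨fun d => c2 d + c1 d, fun d => ENNReal.add_ne_top.2 ⟨hc2 d, hc1t d⟩, ?_⟩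
  intro δ k hδ hδ1 d p M B b hb
  have hMu := Pool.Agent.Y244.Tw.one_le_Mu hδ hδ1
  rcases hb with hb | ⟨⟨hp1, hpd⟩, hd', hB, hB1, hbm, hS⟩
  · have hexp := ((Pool.Agent.TH426.Kt.allB_reg univ A).expo hb).2
    refine (hbd univ δ k MeasurableSet.univ hδ hδ1 hb).mono ?_ subset_rfl
    rw [ENNReal.one_rpow, mul_one]
    have h1 : (1 : ℝ≥0∞) ≤ Mu δ ^ ((d : ℝ) + 1 - p) := by
      rw [← ENNReal.one_rpow ((d : ℝ) + 1 - p)]
      exact ENNReal.rpow_le_rpow hMu (by linarith)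
    calc c2 d * (M : ℝ≥0∞) * Pw ε δ ^ d
        = c2 d * (M : ℝ≥0∞) * Pw ε δ ^ d * 1 := (mul_one _).symm
      _ ≤ (c2 d + c1 d) * (M : ℝ≥0∞) * Pw ε δ ^ d * Mu δ ^ ((d : ℝ) + 1 - p) := by
          gcongr
          exact le_self_add
  · have hl : LMb δ univ 1 p (c ε d * M * Pw ε δ ^ d * Mu δ ^ ((d : ℝ) + 1 - p)) B b := by
      intro f hf _
      rw [ENNReal.rpow_one]
      simp only [one_mul]
      refine (hS ε hε δ hδ hδ1 f hf).trans ?_
      have h1 : ENNReal.ofReal (δ ^ (-((d : ℝ) + 1 - p) - ε)) ≤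
          Pw ε δ ^ d * Mu δ ^ ((d : ℝ) + 1 - p) := by
        rw [Pool.Agent.Y244.Tw.Mu_rpow hδ]
        have h2 : ENNReal.ofReal (δ ^ (-ε)) ≤ Pw ε δ ^ d :=
          le_self_pow₀ (Pool.Agent.TH426.Kt.one_le_Pw hε hδ hδ1) (by omega)
        calc ENNReal.ofReal (δ ^ (-((d : ℝ) + 1 - p) - ε))
            = ENNReal.ofReal (δ ^ (-ε)) * ENNReal.ofReal (δ ^ (-((d : ℝ) + 1 - p))) := by
              rw [← ENNReal.ofReal_mul (by positivity), ← Real.rpow_add hδ]
              congr 2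
              ring
          _ ≤ _ := by gcongr
      calc c ε d * M * ENNReal.ofReal (δ ^ (-((d : ℝ) + 1 - p) - ε)) * ∫⁻ y, ‖f y‖ₑ ^ p
          ≤ c ε d * M * (Pw ε δ ^ d * Mu δ ^ ((d : ℝ) + 1 - p)) * ∫⁻ y, ‖f y‖ₑ ^ p := by gcongr
        _ = _ := by ring
    refine (Pool.Agent.TH426.Kt.wb_of_lmb hδ hδ1 MeasurableSet.univ
      zero_le_one (by linarith) (by linarith) hB hB1 hbm hl k).mono ?_ subset_rfl
    have e1 : ((2 : ℝ≥0∞) ^ d) ^ ((1 : ℝ) * p) ≤ (2 ^ d) ^ ((1 : ℝ) * (d + 1)) := by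
      apply ENNReal.rpow_le_rpow_of_exponent_le (one_le_pow₀ (by norm_num))
      linarith
    have e2 : ((3 : ℝ≥0∞) * 8 ^ d) ^ ((1 : ℝ) * p) ≤ (3 * 8 ^ d) ^ ((1 : ℝ) * (d + 1)) := by
      apply ENNReal.rpow_le_rpow_of_exponent_le
      · calc (1 : ℝ≥0∞) = 1 * 1 := (one_mul 1).symm
          _ ≤ 3 * 8 ^ d := mul_le_mul' (by norm_num) (one_le_pow₀ (by norm_num))
      · linarith
    calc (2 ^ d) ^ ((1 : ℝ) * p) * ((3 * 8 ^ d) ^ ((1 : ℝ) * p) *
          (c ε d * M * Pw ε δ ^ d * Mu δ ^ ((d : ℝ) + 1 - p)))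
        ≤ (2 ^ d) ^ ((1 : ℝ) * (d + 1)) * ((3 * 8 ^ d) ^ ((1 : ℝ) * (d + 1)) *
          (c ε d * M * Pw ε δ ^ d * Mu δ ^ ((d : ℝ) + 1 - p))) := by gcongr
      _ = c1 d * M * Pw ε δ ^ d * Mu δ ^ ((d : ℝ) + 1 - p) := by rw [hc1]; ring
      _ ≤ (c2 d + c1 d) * M * Pw ε δ ^ d * Mu δ ^ ((d : ℝ) + 1 - p) := by
          gcongr
          exact le_add_self

/-- **The Kakeya maximal estimate for towers of families of lines**, with the sharp power of `δ` at
the exponent of the tower, up to `δ^(-ε)`; for towers of critical stages the exponent is the critical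
one, `p = n = d + 1`, and the loss is `δ^(-ε)`. -/
theorem result (d : ℕ) (hd : 1 ≤ d) (ε : ℝ) (hε : 0 < ε) (A : ℕ → ℝ) (c : ℝ → ℕ → ℝ≥0) :
    ∃ C : ℝ, 0 < C ∧ ∀ (p : ℝ) (M : ℝ≥0) (B : Set (Vec d)) (b : Vec d → Vec d),
      Tower (Stage A c) d p M B b → ∀ (δ : ℝ) (b' : Vec d → Vec d) (f : Space d → ℝ), 0 < δ →
      δ < 1 → (∀ v ∈ B, ‖b' v - b v‖ ≤ δ) → Measurable f →
      ∫⁻ v in B, lineMax δ b' f v ^ p
        ≤ ENNReal.ofReal (C * M * δ ^ (-((d : ℝ) + 1 - p) - ε)) * ∫⁻ y, ‖f y‖ₑ ^ p := by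
  have hd0 : (0 : ℝ) < d := by exact_mod_cast hd
  obtain ⟨c', hc', hbd⟩ := genB_bd A c (ε / d) (by positivity)
  set C1 : ℝ≥0∞ := cb d ^ ((d : ℝ) + 1) * cc c' (KK 1) d with hC1
  have hC1t : C1 ≠ ∞ := by
    apply ENNReal.mul_ne_top
    · exact ENNReal.rpow_ne_top_of_nonneg (by positivity) (Pool.Agent.TH426.Kt.cb_ne_top d)
    · exact Pool.Agent.TH426.Kt.cc_ne_top hc' (Pool.Agent.TH426.Kt.KK_ne_top zero_le_one) d
  refine ⟨C1.toReal + 1, by positivity, ?_⟩
  intro p M B b hT δ b' f hδ hδ1 hbb hf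
  have hK : KTower (GenB A c) d p M B b := by
    refine toK ?_ hT
    intro d p M B b hd hB hB1 hb hS
    cases hS with
    | planar =>
      have h := Rough.planar (T := univ) hB hB1 hb
      have e2 : (((1 : ℕ) : ℝ) + 1) = 2 := by norm_num
      rw [e2] at h
      exact Or.inl (AllB.rough h)
    | overlap hM hL hO =>
      refine Or.inl (AllB.rough (Rough.overlap hd hM hB hB1 hb hL ?_))
      filter_upwards [hO] with t ht _ using ht
    | monotone hS =>
      refine Or.inl (AllB.rough (Rough.monotone hd hB hB1 hb ?_))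
      filter_upwards [hS] with t ht _ using ht
    | taylor h => exact Or.inl (AllB.smooth hd hB hB1 hb h)
    | maximal hp hpd h => exact Or.inr ⟨⟨hp, hpd⟩, hd, hB, hB1, hb, h⟩
  have hP0 : Pw (ε / d) δ ≠ 0 := by
    have := Pool.Agent.TH426.Kt.one_le_Pw (ε := ε / d) (by positivity) hδ hδ1
    intro h0
    rw [h0] at this
    exact absurd this (by norm_num)
  have hM0 : Mu δ ≠ 0 := by
    have := Pool.Agent.Y244.Tw.one_le_Mu hδ hδ1
    intro h0
    rw [h0] at this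
    exact absurd this (by norm_num)
  have key := Pool.Agent.Y244.Tw.tower_mu (genB_reg A c) hδ hδ1 MeasurableSet.univ hc' hP0
    (Pool.Agent.TH426.Kt.Pw_ne_top _ _) hM0 ENNReal.ofReal_ne_top
    (fun k => hbd δ k hδ hδ1) hK hbb f hf (fun _ _ h => absurd (mem_univ _) h)
  rw [ENNReal.rpow_one] at key
  simp only [one_mul] at key
  refine (key).trans (mul_le_mul_left ?_ _)
  have e1 : Pw (ε / d) δ ^ d = ENNReal.ofReal (δ ^ (-ε)) := by
    unfold Pw
    rw [← ENNReal.ofReal_pow (by positivity), ← Real.rpow_natCast, ← Real.rpow_mul hδ.le]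
    congr 2
    field_simp
  rw [e1, Pool.Agent.Y244.Tw.Mu_rpow hδ]
  calc C1 * M * ENNReal.ofReal (δ ^ (-ε)) * ENNReal.ofReal (δ ^ (-((d : ℝ) + 1 - p)))
      = C1 * M * ENNReal.ofReal (δ ^ (-((d : ℝ) + 1 - p) - ε)) := by
        rw [mul_assoc, ← ENNReal.ofReal_mul (by positivity), ← Real.rpow_add hδ]
        congr 3
        ring
    _ ≤ ENNReal.ofReal (C1.toReal + 1) * ENNReal.ofReal (M : ℝ) *
        ENNReal.ofReal (δ ^ (-((d : ℝ) + 1 - p) - ε)) := by
        gcongr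
        · rw [ENNReal.le_ofReal_iff_toReal_le hC1t (by positivity)]
          linarith
        · rw [ENNReal.ofReal_coe_nnreal]
    _ = _ := by
        rw [← ENNReal.ofReal_mul (by positivity), ← ENNReal.ofReal_mul (by positivity)]

end Pool.Agent.Results.MP_5168f5_an.TowerFamilies
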