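import Pool.Agent.Y244.WR.Max

/-!
# The Kakeya maximal function in the Wolff range, without loss

`n ≥ 3`, `1 < p < (n + 2) / 2`, `q = (n - 1) p / (p - 1)`.
-/

set_option autoImplicit false

open MeasureTheory
open scoped ENNReal

namespace Pool.Agent.Results.MP_5168f5_an.WolffRangeMaximal

/-- The closed cylinder of length `1` and radius `δ` with centre `a` and axis direction `e`. -/
def tube {n : ℕ} (δ : ℝ) (a e : EuclideanSpace ℝ (Fin n)) : Set (EuclideanSpace ℝ (Fin n)) :=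
  {y | |inner ℝ (y - a) e| ≤ 1 / 2 ∧ ‖(y - a) - (inner ℝ (y - a) e) • e‖ ≤ δ}

/-- The Kakeya maximal function. -/
noncomputable def kakeyaMax {n : ℕ} (δ : ℝ) (f : EuclideanSpace ℝ (Fin n) → ℝ)
    (e : EuclideanSpace ℝ (Fin n)) : ℝ≥0∞ :=
  ⨆ a : EuclideanSpace ℝ (Fin n), (volume (tube δ a e))⁻¹ * ∫⁻ y in tube δ a e, ‖f y‖ₑ

/-- Surface measure of the unit sphere. -/
noncomputable abbrev surf (n : ℕ) : Measure (Metric.sphere (0 : EuclideanSpace ℝ (Fin n)) 1) :=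
  (volume : Measure (EuclideanSpace ℝ (Fin n))).toSphere

/-- For `n ≥ 3` and `1 < p < (n + 2) / 2`: the Kakeya maximal estimate
`‖f*_δ‖_p ≤ C δ ^ (1 - n / p) ‖f‖_p` without loss, and its stronger weak type form
`L^p → L^(q, ∞)`, `q = (n - 1) p / (p - 1)`. -/
theorem result (n : ℕ) (hn : 3 ≤ n) (p q : ℝ) (hp1 : 1 < p) (hp : p < ((n : ℝ) + 2) / 2)
    (hq : q = ((n : ℝ) - 1) * p / (p - 1)) :
    ∃ C : ℝ, 0 < C ∧ ∀ δ : ℝ, 0 < δ → δ < 1 → ∀ f : EuclideanSpace ℝ (Fin n) → ℝ,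
      AEMeasurable f volume →
      (∫⁻ e, kakeyaMax δ f e ^ p ∂(surf n) ≤
        ENNReal.ofReal (C * δ ^ (-((n : ℝ) - p))) * ∫⁻ y, ‖f y‖ₑ ^ p) ∧
      (∀ l : ℝ, 0 < l → surf n {e | ENNReal.ofReal l < kakeyaMax δ f e} ≤
        ENNReal.ofReal (C * (δ ^ (-((n : ℝ) / p - 1)) / l) ^ q) *
          (∫⁻ y, ‖f y‖ₑ ^ p) ^ (q / p)) := by
  obtain ⟨d, rfl⟩ : ∃ d, n = d + 1 := ⟨n - 1, by omega⟩
  have hd : 2 ≤ d := by omega
  have e1 : (((d + 1 : ℕ) : ℝ) - 1) = d := by push_cast; ring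
  have hd2 : (2 : ℝ) ≤ d := by exact_mod_cast hd
  have hd0 : (0 : ℝ) < d := by linarith
  have hp0 : 0 < p := by linarith
  have hp1' : 0 < p - 1 := by linarith
  rw [e1] at hq
  obtain ⟨c, hc⟩ : ∃ c : ℝ, c = (d : ℝ) / (p - 1) := ⟨_, rfl⟩
  have hc0 : 0 < c := by rw [hc]; positivity
  have hpc : p = 1 + (d : ℝ) / c := by
    rw [hc]
    field_simp
    ring
  have hcW : 2 * (d : ℝ) / ((d : ℝ) + 1) < c := by
    push_cast at hp
    rw [hc, div_lt_div_iff₀ (by linarith) hp1']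
    have : p - 1 < ((d : ℝ) + 1) / 2 := by linarith
    nlinarith
  have hqc : q = c * p := by rw [hq, hc]; ring
  have hqp : q / p = c := by rw [hqc]; field_simp
  have hcpd : c * p = (d : ℝ) + c := by
    rw [hpc]
    field_simp
    ring
  obtain ⟨⟨C2, hC2, h2⟩, ⟨C1, hC1, h1⟩⟩ := Pool.Agent.Y244.WR.wolff_max hd hcW
  rw [← hpc] at h1 h2
  refine ⟨C1 + C2, by positivity, ?_⟩
  intro δ hδ hδ1 f hf
  refine ⟨?_, ?_⟩
  · refine (h1 δ hδ hδ1 (fun y => ‖f y‖ₑ) hf.enorm).trans (mul_le_mul_left ?_ _)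
    apply ENNReal.ofReal_le_ofReal
    have e3 : -((((d + 1 : ℕ) : ℝ)) - p) = -((d : ℝ) - (d : ℝ) / c) := by
      rw [hpc]; push_cast; ring
    rw [e3]
    have := Real.rpow_pos_of_pos hδ (-((d : ℝ) - (d : ℝ) / c))
    nlinarith
  · intro l hl
    rw [hqp]
    refine (h2 δ hδ hδ1 (fun y => ‖f y‖ₑ) hf.enorm l hl).trans (mul_le_mul_left ?_ _)
    apply ENNReal.ofReal_le_ofReal
    have e4 : (δ ^ (-((((d + 1 : ℕ) : ℝ)) / p - 1)) / l) ^ q =
        δ ^ (-((c - 1) * (d : ℝ))) * l ^ (-((d : ℝ) + c)) := by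
      rw [Real.div_rpow (by positivity) hl.le, ← Real.rpow_mul hδ.le, Real.rpow_neg hl.le,
        hqc, hcpd, div_eq_mul_inv]
      congr 2
      have : (((d + 1 : ℕ) : ℝ) / p - 1) * ((d : ℝ) + c) = (c - 1) * d := by
        rw [← hcpd]
        have h5 : (((d + 1 : ℕ) : ℝ) / p - 1) * (c * p) = c * ((d + 1 : ℕ) : ℝ) - c * p := by
          field_simp
        rw [h5, hcpd]
        push_cast
        ring
      rw [← this]
      ring
    rw [e4]
    have h3 := Real.rpow_pos_of_pos hδ (-((c - 1) * (d : ℝ)))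
    have h4 := Real.rpow_pos_of_pos hl (-((d : ℝ) + c))
    have h5 := mul_pos h3 h4
    nlinarith

end Pool.Agent.Results.MP_5168f5_an.WolffRangeMaximal
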